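import Pool.Agent.Helper185.PolUp
import Pool.Agent.Helper185.SelDefs2

/-!
The additivity number of the splitting property Split(Omega, Lambda) for sets of reals is at most
the cofinality of the ultrafilter number.

`OpenFam X` is the class of the families of open subsets of the space `X`, `OmegaOf (OpenFam X)` the
class of its open omega-covers, `SplitP A B` the splitting property
(`Pool.Agent.Helper185.SelDefs`, `Pool.Agent.Helper185.SelDefs2`) and `uNumber` the least
cardinality of a base of a nonprincipal ultrafilter on the natural numbers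
(`Pool.Agent.Helper185.PolDefs2`).
-/

namespace Pool.Agent.Results.MP_312f56_gt.CofinalityOfU

open Set Filter Pool.Agent.Helper185.Sel Pool.Agent.Helper185.Pol Pool.Agent.Helper185.Silver
  Pool.Agent.Helper185

/-- The large covers of `X` in the class `G`: each point lies in infinitely many members. -/
def LambdaOf {X : Type*} (G : Set (Set (Set X))) : Set (Set (Set X)) :=
  {U | U ∈ G ∧ IsCov U ∧ ∀ x, {u | u ∈ U ∧ x ∈ u}.Infinite}

/-- `Split(Omega, Lambda)` for a set of reals with the subspace topology. -/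
def SplitOL (X : Set ℝ) : Prop := SplitP (OmegaOf (OpenFam X)) (LambdaOf (OpenFam X))

/-- The additivity number of `Split(Omega, Lambda)`: the least cardinality of a family of sets of
reals with this property whose union does not have it. -/
noncomputable def addSplit : Cardinal.{0} :=
  sInf {κ | ∃ F : Set (Set ℝ), Cardinal.mk F = κ ∧ (∀ X ∈ F, SplitOL X) ∧ ¬ SplitOL (⋃₀ F)}

/-! ### Small sets -/

theorem split_small {X : Type} [TopologicalSpace X] [SecondCountableTopology X]
    (hu : Cardinal.mk X < uNumber) : SplitP (OmegaOf (OpenFam X)) (LambdaOf (OpenFam X)) := by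
  classical
  intro U hU
  have hXinf : Infinite X := by
    by_contra hcon
    rw [not_infinite_iff_finite] at hcon
    obtain ⟨u, hu, hF⟩ := hU.2.2 univ finite_univ
    exact hU.2.1.2 (univ_subset_iff.1 hF ▸ hu)
  have hcard : Cardinal.mk (Finset X) = Cardinal.mk X := Cardinal.mk_finset_of_infinite X
  obtain ⟨V, hVU, hVc, hVω⟩ := Sierp.exists_countable_omega hU.1 hU.2.2
  have hne : ∀ u ∈ V, u ≠ univ := fun u hu h => hU.2.1.2 (h ▸ hVU hu)
  -- finite subfamilies can be avoided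
  have havoid : ∀ E : Set (Set X), E.Finite → (∀ u ∈ E, u ∈ V) →
      ∃ G : Set X, G.Finite ∧ ∀ u ∈ E, ¬ G ⊆ u := by
    intro E hE hEV
    have h1 : ∀ u : Set X, ∃ x : X, u ∈ E → x ∉ u := by
      intro u
      by_cases h : u ∈ E
      · have h2 := hne u (hEV u h)
        rw [Ne, eq_univ_iff_forall] at h2
        push Not at h2
        obtain ⟨x, hx⟩ := h2
        exact ⟨x, fun _ => hx⟩
      · exact ⟨Classical.arbitrary X, fun h2 => absurd h2 h⟩
    choose x hx using h1
    exact ⟨x '' E, hE.image x, fun u hu h => hx u hu (h ⟨u, hu, rfl⟩)⟩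
  have hVinf : V.Infinite := by
    intro hfin
    obtain ⟨G, hG, hG2⟩ := havoid V hfin (fun u hu => hu)
    obtain ⟨u, hu, hGu⟩ := hVω G hG
    exact hG2 u hu hGu
  have : Countable V := hVc.to_subtype
  have : Infinite V := hVinf.to_subtype
  obtain ⟨e⟩ : Nonempty (ℕ ≃ V) := ⟨(nonempty_equiv_of_countable (α := ℕ) (β := V)).some⟩
  let D : Finset X → Set ℕ := fun F => {m | (F : Set X) ⊆ (e m).1}
  have hD1 : ∀ (F : Set X), F.Finite → ∀ E : Set ℕ, E.Finite → ∃ F' : Finset X, F ⊆ F' ∧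
      ∀ m ∈ E, ¬ ((F' : Set X) ⊆ (e m).1) := by
    intro F hF E hE
    obtain ⟨G, hG, hG2⟩ := havoid ((fun m => (e m).1) '' E) (hE.image _)
      (by rintro _ ⟨m, _, rfl⟩; exact (e m).2)
    refine ⟨(hF.union hG).toFinset, ?_, ?_⟩
    · rw [Finite.coe_toFinset]
      exact subset_union_left
    · intro m hm h
      rw [Finite.coe_toFinset] at h
      exact hG2 _ ⟨m, hm, rfl⟩ (subset_union_right.trans h)
  have hDinf : ∀ F, (D F).Infinite := by
    intro F hfin
    obtain ⟨F', hF', hF'2⟩ := hD1 F F.finite_toSet (D F) hfin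
    obtain ⟨u, hu, hFu⟩ := hVω F' F'.finite_toSet
    have h1 : (e (e.symm ⟨u, hu⟩)).1 = u := by simp
    have h2 : e.symm ⟨u, hu⟩ ∈ D F := by
      change (F : Set X) ⊆ (e (e.symm ⟨u, hu⟩)).1
      rw [h1]
      exact hF'.trans hFu
    apply hF'2 _ h2
    rw [h1]
    exact hFu
  have hdir : ∀ F G, ∃ K, D K ⊆ D F ∩ D G := by
    intro F G
    refine ⟨F ∪ G, fun m hm => ?_⟩
    have hm' : ((F ∪ G : Finset X) : Set X) ⊆ (e m).1 := hm
    rw [Finset.coe_union, union_subset_iff] at hm'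
    exact hm'
  obtain ⟨Z, hZ⟩ := exists_splitting (ι := Finset X) (hcard ▸ hu) D hDinf hdir
  -- both parts are large
  have hlarge : ∀ Y : Set ℕ, (∀ F, (Y ∩ D F).Nonempty) →
      (fun m => (e m).1) '' Y ∈ LambdaOf (OpenFam X) := by
    intro Y hY
    have hYinf : ∀ x : X, {m | m ∈ Y ∧ x ∈ (e m).1}.Infinite := by
      intro x hfin
      obtain ⟨F', hF', hF'2⟩ := hD1 {x} (finite_singleton x) _ hfin
      obtain ⟨m, hmY, hm⟩ := hY F'
      have hm' : (F' : Set X) ⊆ (e m).1 := hm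
      exact hF'2 m ⟨hmY, hm' (hF' rfl)⟩ hm'
    refine ⟨?_, ⟨?_, ?_⟩, ?_⟩
    · rintro _ ⟨m, _, rfl⟩
      exact hU.1 _ (hVU (e m).2)
    · rw [sUnion_eq_univ_iff]
      intro x
      obtain ⟨m, hmY, hm⟩ := (hYinf x).nonempty
      exact ⟨_, ⟨m, hmY, rfl⟩, hm⟩
    · rintro ⟨m, _, hm⟩
      exact hne _ (e m).2 hm
    · intro x
      have h1 : ((fun m => (e m).1) '' {m | m ∈ Y ∧ x ∈ (e m).1}).Infinite :=
        (hYinf x).image (fun a _ b _ hab => e.injective (Subtype.ext hab))
      refine h1.mono ?_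
      rintro _ ⟨m, ⟨hmY, hm⟩, rfl⟩
      exact ⟨⟨m, hmY, rfl⟩, hm⟩
  refine ⟨((fun m => (e m).1) '' Z) ∪ (U \ V), (fun m => (e m).1) '' Zᶜ, ?_, ?_,
    ⟨_, subset_union_left, hlarge Z (fun F => (hZ F).1)⟩,
    ⟨_, subset_rfl, hlarge Zᶜ (fun F => (hZ F).2)⟩⟩
  · ext u
    constructor
    · rintro ((⟨m, _, rfl⟩ | h) | ⟨m, _, rfl⟩)
      · exact hVU (e m).2
      · exact h.1
      · exact hVU (e m).2
    · intro hu
      by_cases huV : u ∈ V
      · by_cases hz : e.symm ⟨u, huV⟩ ∈ Z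
        · exact Or.inl (Or.inl ⟨_, hz, by simp⟩)
        · exact Or.inr ⟨_, hz, by simp⟩
      · exact Or.inl (Or.inr ⟨hu, huV⟩)
  · rw [Set.disjoint_left]
    rintro u (⟨m, hm, rfl⟩ | h) ⟨n, hn, hnu⟩
    · have : n = m := e.injective (Subtype.ext hnu)
      subst this
      exact hn hm
    · apply h.2
      rw [← hnu]
      exact (e n).2

/-! ### A base of an ultrafilter -/

theorem aleph0_le_uNumber : Cardinal.aleph0 ≤ uNumber := by
  apply le_csInf
  · exact ⟨_, hyperfilter ℕ, {A | A ∈ hyperfilter ℕ}, rfl, Filter.hyperfilter_le_cofinite,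
      fun _ h => h, fun A hA => ⟨A, hA, subset_rfl⟩⟩
  · rintro κ ⟨p, B, rfl, hp, hB, hbase⟩
    by_contra hcon
    have hfin : B.Finite := Cardinal.lt_aleph0_iff_set_finite.1 (not_le.1 hcon)
    have h1 : ⋂₀ B ∈ (p : Filter ℕ) := (Filter.sInter_mem hfin).2 hB
    obtain ⟨n, hn⟩ := p.neBot.nonempty_of_mem h1
    have h2 : ({n} : Set ℕ)ᶜ ∈ p := hp (by
      rw [mem_cofinite, compl_compl]
      exact finite_singleton n)
    obtain ⟨b, hb, hb2⟩ := hbase _ h2
    exact hb2 (hn b hb) rfl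

theorem not_split_ultra {X : Type} [TopologicalSpace X] {b : X → Set ℕ}
    (hb : ∀ n, IsOpen {x | n ∈ b x}) {p : Ultrafilter ℕ} (hp : (p : Filter ℕ) ≤ cofinite)
    (hbp : ∀ x, b x ∈ p) (hbase : ∀ A ∈ p, ∃ x, b x ⊆ A) :
    ¬ SplitP (OmegaOf (OpenFam X)) (LambdaOf (OpenFam X)) := by
  classical
  intro h
  let C : ℕ → Set X := fun n => {x | n ∈ b x}
  have hU : range C ∈ OmegaOf (OpenFam X) := by
    apply omega_of
    · rintro _ ⟨n, rfl⟩
      exact hb n
    · rintro ⟨n, hn⟩
      have h1 : ({n} : Set ℕ)ᶜ ∈ p := hp (by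
        rw [mem_cofinite, compl_compl]
        exact finite_singleton n)
      obtain ⟨x, hx⟩ := hbase _ h1
      have h2 : x ∈ C n := by rw [hn]; trivial
      exact hx h2 rfl
    · intro F hF
      have h1 : (⋂ x ∈ F, b x) ∈ p := (Filter.biInter_mem hF).2 (fun x _ => hbp x)
      obtain ⟨n, hn⟩ := (p.neBot.nonempty_of_mem h1)
      refine ⟨C n, mem_range_self n, fun x hx => ?_⟩
      exact mem_iInter₂.1 hn x hx
  obtain ⟨V, W, hVW, hdisj, ⟨V', hV', hV'L⟩, W', hW', hW'L⟩ := h _ hU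
  -- one of the two index sets belongs to the ultrafilter
  have key : ∀ (A B A' : Set (Set X)), Disjoint A B → A' ⊆ A → A' ∈ LambdaOf (OpenFam X) →
      A ⊆ range C → {n | C n ∈ B} ∉ p := by
    intro A B A' hAB hA' hA'L hAr hB
    obtain ⟨x, hx⟩ := hbase _ hB
    obtain ⟨u, huA', hxu⟩ := (hA'L.2.2 x).nonempty
    obtain ⟨n, rfl⟩ := hAr (hA' huA')
    have h1 : n ∈ b x := hxu
    exact Set.disjoint_left.1 hAB (hA' huA') (hx h1)
  have h1 : {n | C n ∈ V} ∪ {n | C n ∈ W} ∈ p := by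
    have : {n | C n ∈ V} ∪ {n | C n ∈ W} = univ := by
      ext n
      simp only [mem_union, mem_univ, iff_true]
      have h2 : C n ∈ V ∪ W := by rw [hVW]; exact mem_range_self n
      exact h2
    rw [this]
    exact Filter.univ_mem
  rcases Ultrafilter.union_mem_iff.1 h1 with h2 | h2
  · exact key W V W' hdisj.symm hW' hW'L (by rw [← hVW]; exact subset_union_right) h2
  · exact key V W V' hdisj hV' hV'L (by rw [← hVW]; exact subset_union_left) h2

theorem exists_set : ∃ X : Set ℝ, Cardinal.mk X = uNumber ∧ ¬ SplitOL X := by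
  classical
  have hne : {κ : Cardinal.{0} | ∃ (p : Ultrafilter ℕ) (B : Set (Set ℕ)), Cardinal.mk B = κ ∧
    (p : Filter ℕ) ≤ cofinite ∧ (∀ b ∈ B, b ∈ p) ∧ ∀ A ∈ p, ∃ b ∈ B, b ⊆ A}.Nonempty :=
    ⟨_, hyperfilter ℕ, {A | A ∈ hyperfilter ℕ}, rfl, Filter.hyperfilter_le_cofinite, fun _ h => h,
      fun A hA => ⟨A, hA, subset_rfl⟩⟩
  obtain ⟨p, B, hB, hp, hBp, hbase⟩ := csInf_mem hne
  obtain ⟨g, hg⟩ := exists_embedding_Z
  let χ : Set ℕ → Z := fun A n => decide (n ∈ A)
  have hχ : Function.Injective χ := by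
    intro A A' h
    ext n
    have h1 := congrFun h n
    simp only [χ, decide_eq_decide] at h1
    exact h1
  obtain ⟨e⟩ := homeo_image hg (χ '' B)
  refine ⟨g '' (χ '' B), ?_, ?_⟩
  · rw [Cardinal.mk_image_eq hg.injective, Cardinal.mk_image_eq hχ]
    exact hB
  · apply not_split_ultra (X := (g '' (χ '' B) : Set ℝ))
      (b := fun x => {n | (e.symm x : Z) n = true}) (p := p) ?_ hp ?_ ?_
    · intro n
      have h1 : Continuous (fun x : (g '' (χ '' B) : Set ℝ) => (e.symm x : Z) n) :=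
        (continuous_apply n).comp (continuous_subtype_val.comp e.symm.continuous)
      exact (isOpen_discrete ({true} : Set Bool)).preimage h1
    · intro x
      obtain ⟨A, hA, hAx⟩ := (e.symm x).2
      have h1 : {n | (e.symm x : Z) n = true} = A := by
        ext n
        rw [← hAx]
        simp [χ]
      rw [h1]
      exact hBp A hA
    · intro A hA
      obtain ⟨b, hb, hbA⟩ := hbase A hA
      refine ⟨e ⟨χ b, b, hb, rfl⟩, ?_⟩
      intro n hn
      apply hbA
      have h1 : (e.symm (e ⟨χ b, b, hb, rfl⟩) : Z) n = true := hn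
      rw [Homeomorph.symm_apply_apply] at h1
      simpa [χ] using h1

theorem result : addSplit ≤ uNumber.ord.cof ∧ ∃ F : Set (Set ℝ),
    Cardinal.mk F ≤ uNumber.ord.cof ∧ (∀ X ∈ F, SplitOL X) ∧ ¬ SplitOL (⋃₀ F) := by
  classical
  have main : ∃ F : Set (Set ℝ),
      Cardinal.mk F ≤ uNumber.ord.cof ∧ (∀ X ∈ F, SplitOL X) ∧ ¬ SplitOL (⋃₀ F) := by
    obtain ⟨X, hX, hXs⟩ := exists_set
    have hOu : Cardinal.mk uNumber.ord.ToType = uNumber := Cardinal.mk_ord_toType _
    obtain ⟨e⟩ : Nonempty (X ≃ uNumber.ord.ToType) := by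
      rw [← Cardinal.eq, hX, hOu]
    obtain ⟨C, hC, hCc⟩ := Order.exists_cof_eq uNumber.ord.ToType
    let P : uNumber.ord.ToType → Set ℝ := fun i => Subtype.val '' {x : X | e x ≤ i}
    refine ⟨P '' C, ?_, ?_, ?_⟩
    · refine Cardinal.mk_image_le.trans ?_
      rw [hCc, Ordinal.cof_toType]
    · rintro _ ⟨i, -, rfl⟩
      refine split_small (X := (P i : Set ℝ)) ?_
      have h1 : Cardinal.mk (P i : Set ℝ) ≤ Cardinal.mk (Iic i) := by
        refine Cardinal.mk_image_le.trans ?_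
        refine Cardinal.mk_le_of_injective (f := fun x => (⟨e x.1, x.2⟩ : Iic i)) ?_
        intro x y hxy
        apply Subtype.ext
        apply e.injective
        exact congrArg Subtype.val hxy
      have h2 : Cardinal.mk (Iic i) < uNumber := by
        have h3 : Iic i = insert i (Iio i) := by
          rw [Iio_insert]
        rw [h3]
        refine lt_of_le_of_lt Cardinal.mk_insert_le ?_
        have h4 : Cardinal.mk (Iio i) < uNumber := by
          have := Cardinal.mk_Iio_lt i (by rw [hOu]; simp)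
          rwa [hOu] at this
        exact Cardinal.add_lt_of_lt aleph0_le_uNumber h4
          (Cardinal.one_lt_aleph0.trans_le aleph0_le_uNumber)
      exact h1.trans_lt h2
    · have h1 : ⋃₀ (P '' C) = X := by
        ext r
        constructor
        · rintro ⟨_, ⟨i, -, rfl⟩, x, -, rfl⟩
          exact x.2
        · intro hr
          obtain ⟨i, hi, hri⟩ := hC (e ⟨r, hr⟩)
          exact ⟨P i, ⟨i, hi, rfl⟩, ⟨r, hr⟩, hri, rfl⟩
      rw [h1]
      exact hXs
  refine ⟨?_, main⟩
  obtain ⟨F, hF, hF1, hF2⟩ := main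
  have h : addSplit ≤ Cardinal.mk F := by
    refine csInf_le' ?_
    exact ⟨F, rfl, hF1, hF2⟩
  exact h.trans hF

end Pool.Agent.Results.MP_312f56_gt.CofinalityOfU
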